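import Pool.Agent.Helper67.Covering

/-!
# Covering families in `(ZMod 3)^q` and projections to disjoint blocks (MP_6b9047_co)

Paper proof. (1) `tri`: if `G` is ordered so that later minus earlier has an entry `2`, then
`|G| ≤ 2 ^ m` (the matrix `∏ (y l - x l + 1)` is triangular and has rank at most `2 ^ m`).
(2) `arcfree`: an arc is `u → v` with `v - u ∈ {0,1}^b`, `u ≠ v`; a set `U` of words without arcs has
`|U| ≤ (3/4) 2 ^ b` (by (1) the parts with first letter `a` or `a + 1` have together at most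
`2 ^ (b - 1)` words).
(3) `blocks`: take in every `A j` a maximal matching by arcs. The words of a member of `F` on the blocks give
a cell: a pair or an unmatched word for every block. A cell with `d` pairs is a Boolean cube of dimension
`d`; on a maximal chain of the cube the members satisfy (1) in the other coordinates, so the cell has at most
`C(d, d/2) 2 ^ rest` members (`lym`). The sum over the cells is estimated in `cellsum` by Cauchy-Schwarz and
`∑ 2 ^ d / (d + 1) = ∫ ∏ (2 x a_j + u_j) ≤ ∏ 2 ^ b_j ∫ ((x + 3) / 4) ^ k`.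
(4) `main`: use the `k'` blocks with the fewest exceptions, `k' = ⌊k / (2 (t + 1))⌋`.
-/

set_option autoImplicit false

namespace Pool.Agent.CVB

open Finset
open Pool.Agent.Helper67.Covering

/-- Triangular families (rank argument): if for different `x`, `y` in `G` with `ρ x ≤ ρ y` the difference
`y - x` has an entry `2` in `R`, then `G` has at most `2 ^ |R|` elements. -/
theorem tri {β : Type} [Fintype β] [DecidableEq β] (R : Finset β) (G : Finset (β → ZMod 3))
    (ρ : (β → ZMod 3) → ℕ)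
    (h : ∀ x ∈ G, ∀ y ∈ G, x ≠ y → ρ x ≤ ρ y → ∃ l ∈ R, y l - x l = 2) :
    G.card ≤ 2 ^ R.card := by
  classical
  let Φ : (G → ZMod 3) →ₗ[ZMod 3] (R.powerset → ZMod 3) :=
    { toFun := fun c T => ∑ y : G, c y * ∏ l ∈ T.1, y.1 l
      map_add' := by
        intro c c'
        ext T
        simp only [Pi.add_apply, add_mul, Finset.sum_add_distrib]
      map_smul' := by
        intro a c
        ext T
        simp only [Pi.smul_apply, smul_eq_mul, RingHom.id_apply, Finset.mul_sum, mul_assoc] }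
  have hinj : Function.Injective Φ := by
    rw [injective_iff_map_eq_zero]
    intro c hc
    have hM : ∀ x : G, ∑ y : G, c y * ∏ l ∈ R, (y.1 l + (1 - x.1 l)) = 0 := by
      intro x
      have h1 : ∀ y : G, c y * ∏ l ∈ R, (y.1 l + (1 - x.1 l))
          = ∑ T ∈ R.powerset, (c y * ∏ l ∈ T, y.1 l) * ∏ l ∈ R \ T, (1 - x.1 l) := by
        intro y
        rw [Finset.prod_add, Finset.mul_sum]
        refine Finset.sum_congr rfl fun T _ => ?_
        rw [mul_assoc]
      rw [Finset.sum_congr rfl fun y _ => h1 y, Finset.sum_comm]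
      refine Finset.sum_eq_zero fun T hT => ?_
      rw [← Finset.sum_mul]
      have h2 := congrFun hc ⟨T, hT⟩
      have h3 : ∑ y : G, c y * ∏ l ∈ T, y.1 l = 0 := h2
      rw [h3, zero_mul]
    by_contra hne
    have hex : (Finset.univ.filter fun y : G => c y ≠ 0).Nonempty := by
      obtain ⟨y, hy⟩ := Function.ne_iff.1 hne
      exact ⟨y, by simpa using hy⟩
    obtain ⟨x, hx, hmin⟩ := Finset.exists_min_image _ (fun y : G => ρ y.1) hex
    have hxc : c x ≠ 0 := (Finset.mem_filter.1 hx).2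
    have h4 := hM x
    rw [Finset.sum_eq_single x] at h4
    · have h5 : ∏ l ∈ R, (x.1 l + (1 - x.1 l)) = 1 := by
        refine Finset.prod_eq_one fun l _ => ?_
        ring
      rw [h5, mul_one] at h4
      exact hxc h4
    · intro y _ hyx
      by_cases hy : c y = 0
      · rw [hy, zero_mul]
      · have h6 := hmin y (Finset.mem_filter.2 ⟨Finset.mem_univ _, hy⟩)
        obtain ⟨l, hl, hl2⟩ := h x.1 x.2 y.1 y.2 (fun e => hyx (Subtype.ext e.symm)) h6
        have h7 : y.1 l + (1 - x.1 l) = 0 := by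
          have : y.1 l + (1 - x.1 l) = (y.1 l - x.1 l) + 1 := by ring
          rw [this, hl2]
          decide
        rw [Finset.prod_eq_zero hl h7, mul_zero]
    · intro hx'
      exact absurd (Finset.mem_univ x) hx'
  have h8 := LinearMap.finrank_le_finrank_of_injective hinj
  rw [Module.finrank_fintype_fun_eq_card, Module.finrank_fintype_fun_eq_card,
    Fintype.card_coe, Fintype.card_coe, Finset.card_powerset] at h8
  exact h8

/-- `v` is obtained from `u` by adding `1` to some entries -/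
def Arc {β : Type} (u v : β → ZMod 3) : Prop := u ≠ v ∧ ∀ i, v i - u i = 0 ∨ v i - u i = 1

theorem zmod3 (a : ZMod 3) : a = 0 ∨ a = 1 ∨ a = 2 := by
  revert a; decide

/-- Sets without arcs. -/
theorem arcfree {β : Type} [Fintype β] [DecidableEq β] [Nonempty β] (U : Finset (β → ZMod 3))
    (hU : ∀ u ∈ U, ∀ v ∈ U, ¬ Arc u v) : 4 * U.card ≤ 3 * 2 ^ Fintype.card β := by
  classical
  obtain ⟨b⟩ := ‹Nonempty β›
  have hpos : 0 < Fintype.card β := Fintype.card_pos_iff.2 ⟨b⟩
  have key : ∀ a : ZMod 3, (U.filter fun x => x b = a ∨ x b = a + 1).card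
      ≤ 2 ^ (Fintype.card β - 1) := by
    intro a
    have h := tri (Finset.univ.erase b) (U.filter fun x => x b = a ∨ x b = a + 1)
      (fun x => if x b = a then 0 else 1) ?_
    · rwa [Finset.card_erase_of_mem (Finset.mem_univ b), Finset.card_univ] at h
    intro x hx y hy hxy hρ
    rw [Finset.mem_filter] at hx hy
    have h1 : y b - x b = 0 ∨ y b - x b = 1 := by
      rcases hx.2 with e | e <;> rcases hy.2 with e' | e'
      · left; rw [e, e', sub_self]
      · right; rw [e, e']; ring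
      · exfalso
        have hne : a + 1 ≠ a := by
          intro h0
          have : (1 : ZMod 3) = 0 := by linear_combination h0
          exact absurd this (by decide)
        simp [e, e', hne] at hρ
      · left; rw [e, e', sub_self]
    have h2 : ∃ i, ¬ (y i - x i = 0 ∨ y i - x i = 1) := by
      by_contra hcon
      refine hU x hx.1 y hy.1 ⟨hxy, fun i => ?_⟩
      by_contra h0
      exact hcon ⟨i, h0⟩
    obtain ⟨i, hi⟩ := h2
    have hib : i ≠ b := by
      rintro rfl
      exact hi h1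
    refine ⟨i, Finset.mem_erase.2 ⟨hib, Finset.mem_univ _⟩, ?_⟩
    rcases zmod3 (y i - x i) with e | e | e
    · exact absurd (Or.inl e) hi
    · exact absurd (Or.inr e) hi
    · exact e
  have hsum : ∑ a : ZMod 3, (U.filter fun x => x b = a ∨ x b = a + 1).card = 2 * U.card := by
    simp only [Finset.card_filter]
    rw [Finset.sum_comm]
    have h1 : ∀ x ∈ U, ∑ a : ZMod 3, (if x b = a ∨ x b = a + 1 then 1 else 0) = 2 := by
      intro x _
      have : ∀ c : ZMod 3, ∑ a : ZMod 3, (if c = a ∨ c = a + 1 then 1 else 0) = 2 := by decide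
      exact this (x b)
    rw [Finset.sum_congr rfl h1, Finset.sum_const, smul_eq_mul, mul_comm]
  have h2 : ∑ a : ZMod 3, (U.filter fun x => x b = a ∨ x b = a + 1).card
      ≤ 3 * 2 ^ (Fintype.card β - 1) := by
    calc _ ≤ ∑ _a : ZMod 3, 2 ^ (Fintype.card β - 1) := Finset.sum_le_sum fun a _ => key a
      _ = 3 * 2 ^ (Fintype.card β - 1) := by
        rw [Finset.sum_const, Finset.card_univ, ZMod.card, smul_eq_mul]
  rw [hsum] at h2
  have h3 : 2 ^ Fintype.card β = 2 * 2 ^ (Fintype.card β - 1) := by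
    rw [← pow_succ']
    congr 1
    omega
  rw [h3]
  omega

/-- Matching: representatives `r`, upper elements `s`. -/
structure Mat {W : Type} [DecidableEq W] (arc : W → W → Prop) (A : Finset W) (r : W → W)
    (s : W → Prop) (Lo : Finset W) (U : Finset W) : Prop where
  mem : ∀ w ∈ A, r w ∈ Lo ∪ U
  fix : ∀ w ∈ A, ¬ s w → r w = w
  inj : ∀ w ∈ A, ∀ w' ∈ A, s w → s w' → r w = r w' → w = w'
  up : ∀ w ∈ A, s w → arc (r w) w
  low : ∀ w ∈ A, s w → r w ∈ Lo
  dis : Disjoint Lo U
  card : 2 * Lo.card + U.card = A.card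
  sub : U ⊆ A
  free : ∀ u ∈ U, ∀ v ∈ U, ¬ arc u v

theorem exists_mat {W : Type} [DecidableEq W] (arc : W → W → Prop) (harc : ∀ w, ¬ arc w w)
    (A : Finset W) :
    ∃ (r : W → W) (s : W → Prop) (Lo U : Finset W), Mat arc A r s Lo U := by
  classical
  let P : Finset (W × W) → Prop := fun M => (∀ p ∈ M, p.1 ∈ A ∧ p.2 ∈ A ∧ arc p.1 p.2) ∧
    (∀ p ∈ M, ∀ p' ∈ M, p.1 = p'.1 → p = p') ∧ (∀ p ∈ M, ∀ p' ∈ M, p.2 = p'.2 → p = p') ∧
    (∀ p ∈ M, ∀ p' ∈ M, p.1 ≠ p'.2)
  have hne : ((A ×ˢ A).powerset.filter P).Nonempty :=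
    ⟨∅, by simp [P]⟩
  obtain ⟨M, hM, hmax⟩ := Finset.exists_max_image _ (fun M : Finset (W × W) => M.card) hne
  obtain ⟨hMA, hMP⟩ := Finset.mem_filter.1 hM
  obtain ⟨h1, h2, h3, h4⟩ := hMP
  let Lo := M.image Prod.fst
  let Up := M.image Prod.snd
  let U := A \ (Lo ∪ Up)
  let s : W → Prop := fun w => ∃ p ∈ M, p.2 = w
  let r : W → W := fun w => if h : ∃ p ∈ M, p.2 = w then (Classical.choose h).1 else w
  have hr : ∀ p ∈ M, r p.2 = p.1 := by
    intro p hp
    have hex : ∃ p' ∈ M, p'.2 = p.2 := ⟨p, hp, rfl⟩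
    have hc := Classical.choose_spec hex
    have : r p.2 = (Classical.choose hex).1 := dif_pos hex
    rw [this, h3 _ hc.1 p hp hc.2]
  have hr' : ∀ w, ¬ s w → r w = w := fun w hw => dif_neg hw
  have hLoA : Lo ⊆ A := by
    intro w hw
    obtain ⟨p, hp, rfl⟩ := Finset.mem_image.1 hw
    exact (h1 p hp).1
  have hUpA : Up ⊆ A := by
    intro w hw
    obtain ⟨p, hp, rfl⟩ := Finset.mem_image.1 hw
    exact (h1 p hp).2.1
  refine ⟨r, s, Lo, U, ⟨?_, ?_, ?_, ?_, ?_, ?_, ?_, ?_, ?_⟩⟩
  · intro w hw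
    by_cases hs : s w
    · obtain ⟨p, hp, rfl⟩ := hs
      rw [hr p hp]
      exact Finset.mem_union_left _ (Finset.mem_image_of_mem _ hp)
    · rw [hr' w hs]
      by_cases hl : w ∈ Lo
      · exact Finset.mem_union_left _ hl
      · refine Finset.mem_union_right _ (Finset.mem_sdiff.2 ⟨hw, fun h => ?_⟩)
        rcases Finset.mem_union.1 h with h | h
        · exact hl h
        · obtain ⟨p, hp, e⟩ := Finset.mem_image.1 h
          exact hs ⟨p, hp, e⟩
  · intro w _ hs
    exact hr' w hs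
  · rintro w _ w' _ ⟨p, hp, rfl⟩ ⟨p', hp', rfl⟩ he
    rw [hr p hp, hr p' hp'] at he
    rw [h2 p hp p' hp' he]
  · rintro w _ ⟨p, hp, rfl⟩
    rw [hr p hp]
    exact (h1 p hp).2.2
  · rintro w _ ⟨p, hp, rfl⟩
    rw [hr p hp]
    exact Finset.mem_image_of_mem _ hp
  · rw [Finset.disjoint_left]
    intro w hw hU
    exact (Finset.mem_sdiff.1 hU).2 (Finset.mem_union_left _ hw)
  · have c1 : Lo.card = M.card := Finset.card_image_of_injOn fun p hp p' hp' e => h2 p hp p' hp' e
    have c2 : Up.card = M.card := Finset.card_image_of_injOn fun p hp p' hp' e => h3 p hp p' hp' e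
    have hd : Disjoint Lo Up := by
      rw [Finset.disjoint_left]
      intro w hw hw'
      obtain ⟨p, hp, e⟩ := Finset.mem_image.1 hw
      obtain ⟨p', hp', e'⟩ := Finset.mem_image.1 hw'
      exact h4 p hp p' hp' (e.trans e'.symm)
    have c3 : (Lo ∪ Up).card = Lo.card + Up.card := Finset.card_union_of_disjoint hd
    have c4 : U.card + (Lo ∪ Up).card = A.card :=
      Finset.card_sdiff_add_card_eq_card (Finset.union_subset hLoA hUpA)
    show 2 * Lo.card + U.card = A.card
    omega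
  · exact Finset.sdiff_subset
  · intro u hu v hv huv
    obtain ⟨huA, huL⟩ := Finset.mem_sdiff.1 hu
    obtain ⟨hvA, hvL⟩ := Finset.mem_sdiff.1 hv
    have hnew : (u, v) ∉ M := fun h => huL (Finset.mem_union_left _ (Finset.mem_image_of_mem Prod.fst h))
    have hu1 : ∀ p ∈ M, p.1 ≠ u := fun p hp e => huL (Finset.mem_union_left _
      (e ▸ Finset.mem_image_of_mem Prod.fst hp))
    have hu2 : ∀ p ∈ M, p.2 ≠ u := fun p hp e => huL (Finset.mem_union_right _
      (e ▸ Finset.mem_image_of_mem Prod.snd hp))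
    have hv1 : ∀ p ∈ M, p.1 ≠ v := fun p hp e => hvL (Finset.mem_union_left _
      (e ▸ Finset.mem_image_of_mem Prod.fst hp))
    have hv2 : ∀ p ∈ M, p.2 ≠ v := fun p hp e => hvL (Finset.mem_union_right _
      (e ▸ Finset.mem_image_of_mem Prod.snd hp))
    have hP : P (insert (u, v) M) := by
      refine ⟨?_, ?_, ?_, ?_⟩
      · intro p hp
        rcases Finset.mem_insert.1 hp with rfl | hp
        · exact ⟨huA, hvA, huv⟩
        · exact h1 p hp
      · intro p hp p' hp' e
        rcases Finset.mem_insert.1 hp with rfl | hp <;>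
          rcases Finset.mem_insert.1 hp' with rfl | hp'
        · rfl
        · exact absurd e.symm (hu1 p' hp')
        · exact absurd e (hu1 p hp)
        · exact h2 p hp p' hp' e
      · intro p hp p' hp' e
        rcases Finset.mem_insert.1 hp with rfl | hp <;>
          rcases Finset.mem_insert.1 hp' with rfl | hp'
        · rfl
        · exact absurd e.symm (hv2 p' hp')
        · exact absurd e (hv2 p hp)
        · exact h3 p hp p' hp' e
      · intro p hp p' hp' e
        rcases Finset.mem_insert.1 hp with rfl | hp <;>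
          rcases Finset.mem_insert.1 hp' with rfl | hp'
        · have e' : u = v := e
          rw [e'] at huv
          exact harc _ huv
        · exact hu2 p' hp' e.symm
        · exact hv1 p hp e
        · exact h4 p hp p' hp' e
    have hin : insert (u, v) M ∈ (A ×ˢ A).powerset.filter P := by
      refine Finset.mem_filter.2 ⟨Finset.mem_powerset.2 ?_, hP⟩
      refine Finset.insert_subset (Finset.mem_product.2 ⟨huA, hvA⟩) (Finset.mem_powerset.1 hMA)
    have := hmax _ hin
    rw [Finset.card_insert_of_notMem hnew] at this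
    omega

/-- LYM for weights: if on every maximal chain there are at most `N` members, then there are at most
`N` times the middle binomial coefficient. -/
theorem lym {α X : Type} [Fintype X] [DecidableEq X] (G : Finset α) (S : α → Finset X) (N : ℕ)
    (h : ∀ f : Numbering X, (G.filter fun x => Numbering.IsPrefix f (S x)).card ≤ N) :
    G.card ≤ (Fintype.card X).choose (Fintype.card X / 2) * N := by
  classical
  set n := Fintype.card X with hn
  have h1 : ∑ x ∈ G, (S x).card.factorial * (n - (S x).card).factorial ≤ n.factorial * N := by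
    calc ∑ x ∈ G, (S x).card.factorial * (n - (S x).card).factorial
        = ∑ x ∈ G, ∑ f : Numbering X, (if Numbering.IsPrefix f (S x) then 1 else 0) := by
          refine Finset.sum_congr rfl fun x _ => ?_
          rw [← Numbering.card_prefixed, ← Finset.card_filter]
          rfl
      _ = ∑ f : Numbering X, (G.filter fun x => Numbering.IsPrefix f (S x)).card := by
          rw [Finset.sum_comm]
          refine Finset.sum_congr rfl fun f _ => ?_
          rw [Finset.card_filter]
      _ ≤ ∑ _f : Numbering X, N := Finset.sum_le_sum fun f _ => h f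
      _ = n.factorial * N := by
          rw [Finset.sum_const, Finset.card_univ, Fintype.card_numbering, smul_eq_mul]
  have h2 : ∀ x ∈ G, n.factorial ≤
      n.choose (n / 2) * ((S x).card.factorial * (n - (S x).card).factorial) := by
    intro x _
    have hc : (S x).card ≤ n := Finset.card_le_univ _
    rw [← Nat.choose_mul_factorial_mul_factorial hc, mul_assoc]
    exact Nat.mul_le_mul_right _ (Nat.choose_le_middle _ _)
  have h3 : G.card * n.factorial ≤ n.choose (n / 2) * N * n.factorial := by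
    calc G.card * n.factorial = ∑ _x ∈ G, n.factorial := by
          rw [Finset.sum_const, smul_eq_mul]
      _ ≤ ∑ x ∈ G, n.choose (n / 2) * ((S x).card.factorial * (n - (S x).card).factorial) :=
          Finset.sum_le_sum h2
      _ = n.choose (n / 2) * ∑ x ∈ G, (S x).card.factorial * (n - (S x).card).factorial := by
          rw [Finset.mul_sum]
      _ ≤ n.choose (n / 2) * (n.factorial * N) := Nat.mul_le_mul_left _ h1
      _ = n.choose (n / 2) * N * n.factorial := by ring
  exact Nat.le_of_mul_le_mul_right h3 (Nat.factorial_pos _)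

/-- `(d + 1) * (middle binomial coefficient) ^ 2 ≤ 4 ^ d` -/
theorem mid (d : ℕ) : (d + 1) * d.choose (d / 2) ^ 2 ≤ 4 ^ d := by
  have key : ∀ m : ℕ, (2 * m + 1) * (Nat.centralBinom m) ^ 2 ≤ 16 ^ m := by
    intro m
    induction m with
    | zero => simp
    | succ m ih =>
      have h1 := Nat.succ_mul_centralBinom_succ m
      have h2 : (m + 1) ^ 2 * ((2 * (m + 1) + 1) * (Nat.centralBinom (m + 1)) ^ 2)
          ≤ (m + 1) ^ 2 * 16 ^ (m + 1) := by
        calc (m + 1) ^ 2 * ((2 * (m + 1) + 1) * (Nat.centralBinom (m + 1)) ^ 2)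
            = (2 * m + 3) * ((m + 1) * Nat.centralBinom (m + 1)) ^ 2 := by ring
          _ = (2 * m + 3) * (2 * (2 * m + 1) * Nat.centralBinom m) ^ 2 := by rw [h1]
          _ = (4 * ((2 * m + 3) * (2 * m + 1))) * ((2 * m + 1) * Nat.centralBinom m ^ 2) := by ring
          _ ≤ (16 * (m + 1) ^ 2) * 16 ^ m := by
              refine Nat.mul_le_mul ?_ ih
              nlinarith
          _ = (m + 1) ^ 2 * 16 ^ (m + 1) := by ring
      exact Nat.le_of_mul_le_mul_left h2 (by positivity)
  rcases Nat.even_or_odd' d with ⟨m, rfl | rfl⟩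
  · have h := key m
    rw [Nat.centralBinom] at h
    rw [Nat.mul_div_cancel_left m two_pos]
    calc (2 * m + 1) * (2 * m).choose m ^ 2 ≤ 16 ^ m := h
      _ = 4 ^ (2 * m) := by rw [pow_mul]; norm_num
  · have h := key (m + 1)
    have e1 : (2 * m + 1) / 2 = m := by omega
    have e2 : Nat.centralBinom (m + 1) = 2 * (2 * m + 1).choose m := by
      rw [Nat.centralBinom, show 2 * (m + 1) = (2 * m + 1) + 1 by ring, Nat.choose_succ_succ,
        Nat.choose_symm_half]
      ring
    rw [e1]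
    rw [e2] at h
    have h3 : 4 * ((2 * m + 1 + 1) * (2 * m + 1).choose m ^ 2) ≤ 4 * 4 ^ (2 * m + 1) := by
      calc 4 * ((2 * m + 1 + 1) * (2 * m + 1).choose m ^ 2)
          ≤ (2 * (m + 1) + 1) * (2 * (2 * m + 1).choose m) ^ 2 := by nlinarith [sq_nonneg ((2 * m + 1).choose m)]
        _ ≤ 16 ^ (m + 1) := h
        _ = 4 * 4 ^ (2 * m + 1) := by
            rw [show (16 : ℕ) = 4 ^ 2 by norm_num, ← pow_mul, ← pow_succ']
            congr 1
    exact Nat.le_of_mul_le_mul_left h3 (by norm_num)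

theorem int_aux (k : ℕ) : ∫ x in (0 : ℝ)..1, ((x + 3) / 4) ^ k ≤ 4 / (k + 1) := by
  have hd : ∀ x ∈ Set.uIcc (0 : ℝ) 1,
      HasDerivAt (fun x : ℝ => 4 / ((k : ℝ) + 1) * ((x + 3) / 4) ^ (k + 1)) (((x + 3) / 4) ^ k) x := by
    intro x _
    have h1 : HasDerivAt (fun x : ℝ => (x + 3) / 4) (1 / 4) x :=
      ((hasDerivAt_id x).add_const 3).div_const 4
    have h2 := (h1.pow (k + 1)).const_mul (4 / ((k : ℝ) + 1))
    have h3 : 4 / ((k : ℝ) + 1) * (((k + 1 : ℕ) : ℝ) * ((x + 3) / 4) ^ (k + 1 - 1) * (1 / 4))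
        = ((x + 3) / 4) ^ k := by
      have : ((k : ℝ) + 1) ≠ 0 := by positivity
      rw [Nat.add_sub_cancel]
      push_cast
      field_simp
    rw [h3] at h2
    exact h2
  rw [intervalIntegral.integral_eq_sub_of_hasDerivAt hd
    (Continuous.intervalIntegrable (by fun_prop) _ _)]
  have h1 : ((1 : ℝ) + 3) / 4 = 1 := by norm_num
  rw [h1, one_pow, mul_one]
  have h2 : 0 ≤ 4 / ((k : ℝ) + 1) * ((0 + 3) / 4) ^ (k + 1) := by positivity
  linarith

/-- The bound for the sum over the cells. `a j` is the number of matched pairs, `u j` the number of free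
words of the block `j`, and `m c` is the number of blocks in which `c` is a pair. -/
theorem cellsum {κ : Type} [Fintype κ] [DecidableEq κ] {W : κ → Type} [∀ j, DecidableEq (W j)]
    (Lo U : ∀ j, Finset (W j)) (hd : ∀ j, Disjoint (Lo j) (U j)) (Q : κ → ℝ)
    (h1 : ∀ j, 2 * ((Lo j).card : ℝ) + (U j).card ≤ Q j)
    (h2 : ∀ j, 4 * ((U j).card : ℝ) ≤ 3 * Q j) :
    (∑ c ∈ Fintype.piFinset (fun j => Lo j ∪ U j),
      (((Finset.univ.filter fun j => c j ∈ Lo j).card.choose
        ((Finset.univ.filter fun j => c j ∈ Lo j).card / 2) : ℕ) : ℝ)) ^ 2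
      * ((Fintype.card κ : ℝ) + 1) ≤ 4 * (∏ j, Q j) ^ 2 := by
  classical
  set P := Fintype.piFinset (fun j => Lo j ∪ U j) with hP
  set m : (∀ j, W j) → ℕ := fun c => (Finset.univ.filter fun j => c j ∈ Lo j).card with hm
  have hQ0 : ∀ j, 0 ≤ Q j := fun j => by
    have := h1 j
    have : (0 : ℝ) ≤ 2 * ((Lo j).card : ℝ) + (U j).card := by positivity
    linarith
  have hH : ∀ t : ℝ, ∑ c ∈ P, t ^ (m c) = ∏ j, (t * (Lo j).card + (U j).card) := by
    intro t
    have e1 : ∀ c : (∀ j, W j), t ^ (m c) = ∏ j, (if c j ∈ Lo j then t else 1) := by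
      intro c
      rw [Finset.prod_ite, Finset.prod_const, Finset.prod_const_one, mul_one]
    rw [Finset.sum_congr rfl fun c _ => e1 c, hP,
      ← Finset.prod_univ_sum (fun j => Lo j ∪ U j) (fun j w => if w ∈ Lo j then t else 1)]
    refine Finset.prod_congr rfl fun j _ => ?_
    rw [Finset.sum_union (hd j)]
    have e2 : ∑ w ∈ Lo j, (if w ∈ Lo j then t else 1) = t * (Lo j).card := by
      rw [Finset.sum_congr rfl fun w hw => if_pos hw, Finset.sum_const, nsmul_eq_mul, mul_comm]
    have e3 : ∑ w ∈ U j, (if w ∈ Lo j then t else 1) = ((U j).card : ℝ) := by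
      rw [Finset.sum_congr rfl fun w hw => if_neg (Finset.disjoint_right.1 (hd j) hw),
        Finset.sum_const, nsmul_eq_mul, mul_one]
    rw [e2, e3]
  have hmid : ∀ c, (((m c).choose (m c / 2) : ℕ) : ℝ) ^ 2 * ((m c : ℝ) + 1) ≤ 4 ^ (m c) := by
    intro c
    have := mid (m c)
    have h : (((m c + 1) * (m c).choose (m c / 2) ^ 2 : ℕ) : ℝ) ≤ ((4 ^ (m c) : ℕ) : ℝ) :=
      Nat.cast_le.2 this
    push_cast at h
    linarith
  have hCS : (∑ c ∈ P, (((m c).choose (m c / 2) : ℕ) : ℝ)) ^ 2
      ≤ (∑ c ∈ P, (2 : ℝ) ^ (m c)) * ∑ c ∈ P, (((m c).choose (m c / 2) : ℕ) : ℝ) ^ 2 / 2 ^ (m c) := by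
    refine Finset.sum_sq_le_sum_mul_sum_of_sq_le_mul P (fun c _ => by positivity)
      (fun c _ => by positivity) fun c _ => le_of_eq ?_
    field_simp
  have hS1 : ∑ c ∈ P, (2 : ℝ) ^ (m c) ≤ ∏ j, Q j := by
    rw [hH 2]
    exact Finset.prod_le_prod (fun j _ => by positivity) fun j _ => h1 j
  have hS2 : ∑ c ∈ P, (((m c).choose (m c / 2) : ℕ) : ℝ) ^ 2 / 2 ^ (m c)
      ≤ ∑ c ∈ P, (2 : ℝ) ^ (m c) / ((m c : ℝ) + 1) := by
    refine Finset.sum_le_sum fun c _ => ?_
    rw [div_le_div_iff₀ (by positivity) (by positivity)]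
    calc (((m c).choose (m c / 2) : ℕ) : ℝ) ^ 2 * ((m c : ℝ) + 1) ≤ 4 ^ (m c) := hmid c
      _ = 2 ^ (m c) * 2 ^ (m c) := by
        rw [← mul_pow]; norm_num
  have hS3 : ∑ c ∈ P, (2 : ℝ) ^ (m c) / ((m c : ℝ) + 1)
      = ∫ x in (0 : ℝ)..1, ∏ j, (2 * x * (Lo j).card + (U j).card) := by
    have e1 : ∀ x : ℝ, ∏ j, (2 * x * (Lo j).card + (U j).card) = ∑ c ∈ P, (2 * x) ^ (m c) :=
      fun x => (hH (2 * x)).symm
    simp_rw [e1]
    rw [intervalIntegral.integral_finsetSum]
    · refine Finset.sum_congr rfl fun c _ => ?_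
      simp_rw [mul_pow]
      rw [intervalIntegral.integral_const_mul, integral_pow]
      simp
      ring
    · intro c _
      exact Continuous.intervalIntegrable (by fun_prop) _ _
  have hS4 : ∫ x in (0 : ℝ)..1, ∏ j, (2 * x * (Lo j).card + (U j).card)
      ≤ (∏ j, Q j) * (4 / ((Fintype.card κ : ℝ) + 1)) := by
    calc ∫ x in (0 : ℝ)..1, ∏ j, (2 * x * (Lo j).card + (U j).card)
        ≤ ∫ x in (0 : ℝ)..1, (∏ j, Q j) * ((x + 3) / 4) ^ (Fintype.card κ) := by
          refine intervalIntegral.integral_mono_on (by norm_num)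
            (Continuous.intervalIntegrable (by fun_prop) _ _)
            (Continuous.intervalIntegrable (by fun_prop) _ _) fun x hx => ?_
          have hx0 : 0 ≤ x := hx.1
          have hx1 : x ≤ 1 := hx.2
          have e : (∏ j, Q j) * ((x + 3) / 4) ^ (Fintype.card κ) = ∏ j, (Q j * ((x + 3) / 4)) := by
            rw [Finset.prod_mul_distrib, Finset.prod_const, Finset.card_univ]
          rw [e]
          refine Finset.prod_le_prod (fun j _ => by positivity) fun j _ => ?_
          nlinarith [h1 j, h2 j, mul_le_mul_of_nonneg_left (h1 j) hx0,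
            mul_le_mul_of_nonneg_left (h2 j) (by linarith : (0 : ℝ) ≤ 1 - x)]
      _ = (∏ j, Q j) * ∫ x in (0 : ℝ)..1, ((x + 3) / 4) ^ (Fintype.card κ) :=
          intervalIntegral.integral_const_mul _ _
      _ ≤ (∏ j, Q j) * (4 / ((Fintype.card κ : ℝ) + 1)) :=
          mul_le_mul_of_nonneg_left (int_aux _) (Finset.prod_nonneg fun j _ => hQ0 j)
  have hQp : 0 ≤ ∏ j, Q j := Finset.prod_nonneg fun j _ => hQ0 j
  have hfin : (∑ c ∈ P, (((m c).choose (m c / 2) : ℕ) : ℝ)) ^ 2
      ≤ (∏ j, Q j) * ((∏ j, Q j) * (4 / ((Fintype.card κ : ℝ) + 1))) := by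
    refine hCS.trans ?_
    refine mul_le_mul hS1 ?_ (Finset.sum_nonneg fun c _ => by positivity) hQp
    exact hS2.trans (hS3.le.trans hS4)
  have hk : (0 : ℝ) < (Fintype.card κ : ℝ) + 1 := by positivity
  calc (∑ c ∈ P, (((m c).choose (m c / 2) : ℕ) : ℝ)) ^ 2 * ((Fintype.card κ : ℝ) + 1)
      ≤ ((∏ j, Q j) * ((∏ j, Q j) * (4 / ((Fintype.card κ : ℝ) + 1)))) * ((Fintype.card κ : ℝ) + 1) :=
        mul_le_mul_of_nonneg_right hfin hk.le
    _ = 4 * (∏ j, Q j) ^ 2 := by field_simp

/-- Families whose projection to each block `B j` has at most `2 ^ |B j|` words. -/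
theorem blocks {β κ : Type} [Fintype β] [DecidableEq β] [Fintype κ] [DecidableEq κ]
    (B : κ → Finset β) (hB : ∀ i j, i ≠ j → Disjoint (B i) (B j)) (hne : ∀ j, (B j).Nonempty)
    (F : Finset (β → ZMod 3)) (hF : ∀ x ∈ F, ∀ y ∈ F, x ≠ y → ∃ l, y l - x l = 2)
    (A : ∀ j, Finset (B j → ZMod 3)) (hA : ∀ j, (A j).card ≤ 2 ^ (B j).card)
    (hFA : ∀ x ∈ F, ∀ j, (fun i : B j => x i) ∈ A j) :
    (F.card : ℝ) ^ 2 * ((Fintype.card κ : ℝ) + 1) ≤ 4 * (2 ^ Fintype.card β) ^ 2 := by
  classical
  have hmat : ∀ j, ∃ (r : (B j → ZMod 3) → (B j → ZMod 3)) (s : (B j → ZMod 3) → Prop)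
      (Lo U : Finset (B j → ZMod 3)), Mat Arc (A j) r s Lo U :=
    fun j => exists_mat Arc (fun w h => h.1 rfl) (A j)
  choose r s Lo U hm using hmat
  let res : ∀ j, (β → ZMod 3) → (B j → ZMod 3) := fun j x i => x i
  let cell : (β → ZMod 3) → (∀ j, B j → ZMod 3) := fun x j => r j (res j x)
  let R : Finset β := Finset.univ.filter fun l => ∀ j, l ∉ B j
  let P := Fintype.piFinset (fun j => Lo j ∪ U j)
  have hcell : ∀ x ∈ F, cell x ∈ P := fun x hx =>
    Fintype.mem_piFinset.2 fun j => (hm j).mem _ (hFA x hx j)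
  have hbound : ∀ c ∈ P, (F.filter fun x => cell x = c).card
      ≤ (Finset.univ.filter fun j => c j ∈ Lo j).card.choose
        ((Finset.univ.filter fun j => c j ∈ Lo j).card / 2) * 2 ^ R.card := by
    intro c _
    let J : Finset κ := Finset.univ.filter fun j => c j ∈ Lo j
    let S : (β → ZMod 3) → Finset J := fun x => Finset.univ.filter fun j : J => s j (res j x)
    have hl := lym (F.filter fun x => cell x = c) S (2 ^ R.card) ?_
    · rw [Fintype.card_coe] at hl
      exact hl
    intro f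
    refine tri R _ (fun x => (S x).card) ?_
    intro x hx y hy hxy hρ
    obtain ⟨hx1, hx2⟩ := Finset.mem_filter.1 hx
    obtain ⟨hx1, hxc⟩ := Finset.mem_filter.1 hx1
    obtain ⟨hy1, hy2⟩ := Finset.mem_filter.1 hy
    obtain ⟨hy1, hyc⟩ := Finset.mem_filter.1 hy1
    have hsub : S x ⊆ S y := hx2.subset_of_card_le_card hy2 hρ
    obtain ⟨l, hl⟩ := hF x hx1 y hy1 hxy
    refine ⟨l, Finset.mem_filter.2 ⟨Finset.mem_univ _, fun j hlj => ?_⟩, hl⟩
    have hwA := hFA x hx1 j
    have hwA' := hFA y hy1 j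
    have hw : r j (res j x) = c j := congrFun hxc j
    have hw' : r j (res j y) = c j := congrFun hyc j
    have e20 : (2 : ZMod 3) ≠ 0 := by decide
    have e21 : (2 : ZMod 3) ≠ 1 := by decide
    by_cases h1 : s j (res j x) <;> by_cases h2 : s j (res j y)
    · have h3 := (hm j).inj _ hwA _ hwA' h1 h2 (hw.trans hw'.symm)
      have h4 : x l = y l := congrFun h3 ⟨l, hlj⟩
      rw [h4, sub_self] at hl
      exact e20 hl.symm
    · have h3 := (hm j).low _ hwA h1
      have hjJ : j ∈ J := Finset.mem_filter.2 ⟨Finset.mem_univ _, hw ▸ h3⟩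
      have h4 : (⟨j, hjJ⟩ : J) ∈ S x := Finset.mem_filter.2 ⟨Finset.mem_univ _, h1⟩
      exact h2 (Finset.mem_filter.1 (hsub h4)).2
    · have h3 := (hm j).fix _ hwA h1
      have h4 := (hm j).up _ hwA' h2
      have h5 : r j (res j y) = res j x := by rw [hw', ← hw]; exact h3
      have h6 : Arc (r j (res j y)) (res j y) := h4
      rw [h5] at h6
      have h7 : y l - x l = 0 ∨ y l - x l = 1 := h6.2 ⟨l, hlj⟩
      rw [hl] at h7
      rcases h7 with h7 | h7
      · exact e20 h7
      · exact e21 h7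
    · have h3 : r j (res j x) = res j x := (hm j).fix _ hwA h1
      have h4 : r j (res j y) = res j y := (hm j).fix _ hwA' h2
      have h5 : res j x = res j y := by rw [← h3, ← h4, hw, hw']
      have h6 : x l = y l := congrFun h5 ⟨l, hlj⟩
      rw [h6, sub_self] at hl
      exact e20 hl.symm
  have hsum : F.card ≤ (∑ c ∈ P, (Finset.univ.filter fun j => c j ∈ Lo j).card.choose
        ((Finset.univ.filter fun j => c j ∈ Lo j).card / 2)) * 2 ^ R.card := by
    rw [Finset.card_eq_sum_card_fiberwise hcell, Finset.sum_mul]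
    exact Finset.sum_le_sum hbound
  have hcard : ∑ j, (B j).card + R.card = Fintype.card β := by
    have h1 : (Finset.univ.biUnion B).card = ∑ j, (B j).card :=
      Finset.card_biUnion fun i _ j _ hij => hB i j hij
    have h2 : R = Finset.univ \ Finset.univ.biUnion B := by
      ext l
      simp [R]
    rw [← h1, h2, add_comm, Finset.card_sdiff_add_card_eq_card (Finset.subset_univ _),
      Finset.card_univ]
  have hC := cellsum Lo U (fun j => (hm j).dis) (fun j => (2 : ℝ) ^ (B j).card) ?_ ?_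
  · have hT : (F.card : ℝ) ≤ (∑ c ∈ P, (((Finset.univ.filter fun j => c j ∈ Lo j).card.choose
        ((Finset.univ.filter fun j => c j ∈ Lo j).card / 2) : ℕ) : ℝ)) * 2 ^ R.card := by
      have h : (F.card : ℝ) ≤ (((∑ c ∈ P, (Finset.univ.filter fun j => c j ∈ Lo j).card.choose
        ((Finset.univ.filter fun j => c j ∈ Lo j).card / 2)) * 2 ^ R.card : ℕ) : ℝ) :=
        Nat.cast_le.2 hsum
      push_cast at h
      exact h
    have hsq : (F.card : ℝ) ^ 2 ≤ (∑ c ∈ P, (((Finset.univ.filter fun j => c j ∈ Lo j).card.choose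
        ((Finset.univ.filter fun j => c j ∈ Lo j).card / 2) : ℕ) : ℝ)) ^ 2 * (2 ^ R.card) ^ 2 := by
      rw [← mul_pow]
      exact pow_le_pow_left₀ (Nat.cast_nonneg _) hT 2
    have hprod : (∏ j, (2 : ℝ) ^ (B j).card) = 2 ^ (∑ j, (B j).card) :=
      Finset.prod_pow_eq_pow_sum _ _ _
    rw [hprod] at hC
    calc (F.card : ℝ) ^ 2 * ((Fintype.card κ : ℝ) + 1)
        ≤ ((∑ c ∈ P, (((Finset.univ.filter fun j => c j ∈ Lo j).card.choose
          ((Finset.univ.filter fun j => c j ∈ Lo j).card / 2) : ℕ) : ℝ)) ^ 2 * (2 ^ R.card) ^ 2)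
          * ((Fintype.card κ : ℝ) + 1) := mul_le_mul_of_nonneg_right hsq (by positivity)
      _ = ((∑ c ∈ P, (((Finset.univ.filter fun j => c j ∈ Lo j).card.choose
          ((Finset.univ.filter fun j => c j ∈ Lo j).card / 2) : ℕ) : ℝ)) ^ 2
          * ((Fintype.card κ : ℝ) + 1)) * (2 ^ R.card) ^ 2 := by ring
      _ ≤ (4 * (2 ^ (∑ j, (B j).card)) ^ 2) * (2 ^ R.card) ^ 2 :=
          mul_le_mul_of_nonneg_right hC (by positivity)
      _ = 4 * (2 ^ Fintype.card β) ^ 2 := by
          rw [← hcard, pow_add]; ring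
  · intro j
    have h1 := (hm j).card
    have h2 := hA j
    have h3 : ((2 * (Lo j).card + (U j).card : ℕ) : ℝ) ≤ ((2 ^ (B j).card : ℕ) : ℝ) :=
      Nat.cast_le.2 (by omega)
    push_cast at h3
    exact h3
  · intro j
    have : Nonempty (B j) := (hne j).coe_sort
    have h1 := arcfree (U j) (hm j).free
    rw [Fintype.card_coe] at h1
    have h3 : ((4 * (U j).card : ℕ) : ℝ) ≤ ((3 * 2 ^ (B j).card : ℕ) : ℝ) := Nat.cast_le.2 h1
    push_cast at h3
    exact h3

/-- A subset of given size with a small sum. -/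
theorem small {κ : Type} [DecidableEq κ] (f : κ → ℝ) (I : Finset κ) :
    ∀ d : ℕ, d ≤ I.card → ∃ J ⊆ I, J.card = I.card - d ∧
      (I.card : ℝ) * ∑ j ∈ J, f j ≤ (J.card : ℝ) * ∑ j ∈ I, f j := by
  intro d
  induction d with
  | zero => intro _; exact ⟨I, Finset.Subset.refl _, by simp, le_refl _⟩
  | succ d ih =>
    intro hd
    obtain ⟨J, hJ, hJc, hJs⟩ := ih (by omega)
    have hJne : J.Nonempty := Finset.card_pos.1 (by omega)
    obtain ⟨i, hi, hmax⟩ := Finset.exists_max_image J f hJne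
    refine ⟨J.erase i, (Finset.erase_subset _ _).trans hJ, ?_, ?_⟩
    · rw [Finset.card_erase_of_mem hi]; omega
    · have h1 : ∑ j ∈ J, f j ≤ J.card * f i := by
        have := Finset.sum_le_card_nsmul J f (f i) hmax
        rwa [nsmul_eq_mul] at this
      have h2 : ∑ j ∈ J.erase i, f j = ∑ j ∈ J, f j - f i := by
        rw [← Finset.add_sum_erase J f hi]; ring
      have h3 : ((J.erase i).card : ℝ) = J.card - 1 := by
        have := Finset.card_erase_add_one hi
        have h : (((J.erase i).card + 1 : ℕ) : ℝ) = (J.card : ℝ) := by rw [this]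
        push_cast at h
        linarith
      have hJp : (0 : ℝ) < J.card := by exact_mod_cast Finset.card_pos.2 hJne
      have hI0 : (0 : ℝ) ≤ I.card := Nat.cast_nonneg _
      have hJ1 : (1 : ℝ) ≤ J.card := by exact_mod_cast Finset.card_pos.2 hJne
      rw [h2, h3]
      -- multiply by `J.card`
      have h4 : (J.card : ℝ) * ((I.card : ℝ) * (∑ j ∈ J, f j - f i))
          ≤ (J.card : ℝ) * (((J.card : ℝ) - 1) * ∑ j ∈ I, f j) := by
        have h5 : (J.card : ℝ) * ((I.card : ℝ) * (∑ j ∈ J, f j - f i))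
            ≤ ((J.card : ℝ) - 1) * ((I.card : ℝ) * ∑ j ∈ J, f j) := by
          have h6 := mul_le_mul_of_nonneg_left h1 hI0
          nlinarith
        have h7 := mul_le_mul_of_nonneg_left hJs (by linarith : (0 : ℝ) ≤ (J.card : ℝ) - 1)
        nlinarith
      exact le_of_mul_le_mul_left h4 hJp

theorem half_aux (k k' t n S : ℝ) (hk : 0 < k) (hk' : k' ≤ k / (2 * (t + 1))) (ht : 0 ≤ t)
    (hn : 0 ≤ n) (h : k * S ≤ k' * (t * n)) : S ≤ n / 2 := by
  have h0 : 0 < t + 1 := by linarith
  have h1 : k * S ≤ k * (n / 2) := by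
    calc k * S ≤ k' * (t * n) := h
      _ ≤ (k / (2 * (t + 1))) * (t * n) := mul_le_mul_of_nonneg_right hk' (mul_nonneg ht hn)
      _ = k * (n / 2) * (t / (t + 1)) := by field_simp
      _ ≤ k * (n / 2) * 1 := by
          refine mul_le_mul_of_nonneg_left ?_ (by positivity)
          rw [div_le_one h0]; linarith
      _ = k * (n / 2) := mul_one _
  exact le_of_mul_le_mul_left h1 hk

theorem fin_aux (n m k k' t Q : ℝ) (hn : 0 ≤ n) (hk : 0 < k) (ht : 0 ≤ t)
    (hQ : 0 ≤ Q) (hnm : n ≤ 2 * m) (hk' : k / (2 * (t + 1)) ≤ k' + 1)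
    (hmain : m ^ 2 * (k' + 1) ≤ 4 * Q ^ 2) : n ≤ 6 * √((t + 1) / k) * Q := by
  have h0 : 0 < t + 1 := by linarith
  have h1 : m ^ 2 * (k / (2 * (t + 1))) ≤ 4 * Q ^ 2 :=
    (mul_le_mul_of_nonneg_left hk' (by positivity)).trans hmain
  have h2 : n ^ 2 ≤ 32 * ((t + 1) / k) * Q ^ 2 := by
    have h3 : n ^ 2 ≤ 4 * m ^ 2 := by
      have := pow_le_pow_left₀ hn hnm 2
      nlinarith
    have h4 : m ^ 2 ≤ 8 * ((t + 1) / k) * Q ^ 2 := by
      have h5 : m ^ 2 * (k / (2 * (t + 1))) * (2 * ((t + 1) / k))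
          ≤ 4 * Q ^ 2 * (2 * ((t + 1) / k)) :=
        mul_le_mul_of_nonneg_right h1 (by positivity)
      have h6 : m ^ 2 * (k / (2 * (t + 1))) * (2 * ((t + 1) / k)) = m ^ 2 := by field_simp
      rw [h6] at h5
      linarith
    linarith
  have hs : 0 ≤ (t + 1) / k := by positivity
  refine le_of_sq_le_sq ?_ (by positivity)
  rw [mul_pow, mul_pow, Real.sq_sqrt hs]
  have : 0 ≤ (t + 1) / k * Q ^ 2 := by positivity
  nlinarith

/-- The main theorem. -/
theorem main (q k : ℕ) (F : Finset (Fin q → ZMod 3)) (B : Fin k → Finset (Fin q))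
    (A : ∀ j, Finset (B j → ZMod 3)) (t : ℝ) (hF : Covering F)
    (hB : ∀ i j, i ≠ j → Disjoint (B i) (B j)) (hne : ∀ j, (B j).Nonempty)
    (hA : ∀ j, (A j).card ≤ 2 ^ (B j).card) (hk : 1 ≤ k) (ht : 0 ≤ t)
    (hexc : (∑ j, ((F.filter fun x => (fun i : B j => x i) ∉ A j).card : ℝ)) ≤ t * F.card) :
    (F.card : ℝ) ≤ 6 * √((t + 1) / k) * 2 ^ q := by
  classical
  set e : Fin k → ℝ := fun j => ((F.filter fun x => (fun i : B j => x i) ∉ A j).card : ℝ) with he
  have hkr : (0 : ℝ) < k := by exact_mod_cast hk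
  set k' : ℕ := ⌊(k : ℝ) / (2 * (t + 1))⌋₊ with hk'
  have hk'1 : (k' : ℝ) ≤ k / (2 * (t + 1)) := Nat.floor_le (by positivity)
  have hk'2 : (k : ℝ) / (2 * (t + 1)) < k' + 1 := Nat.lt_floor_add_one _
  have hk'k : k' ≤ k := by
    have : (k' : ℝ) ≤ k := by
      refine hk'1.trans (div_le_self hkr.le ?_)
      linarith
    exact_mod_cast this
  obtain ⟨J, _, hJc, hJs⟩ := small e Finset.univ (k - k') (by rw [Finset.card_univ, Fintype.card_fin]; omega)
  rw [Finset.card_univ, Fintype.card_fin] at hJc hJs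
  have hJc' : J.card = k' := by omega
  rw [hJc'] at hJs
  set F' : Finset (Fin q → ZMod 3) := F.filter fun x => ∀ j : J, (fun i : B j => x i) ∈ A j with hF'
  have hbad : ((F.filter fun x => ¬ ∀ j : J, (fun i : B j => x i) ∈ A j).card : ℝ) ≤ ∑ j ∈ J, e j := by
    have hsub : (F.filter fun x => ¬ ∀ j : J, (fun i : B j => x i) ∈ A j)
        ⊆ J.biUnion fun j => F.filter fun x => (fun i : B j => x i) ∉ A j := by
      intro x hx
      obtain ⟨hxF, hx2⟩ := Finset.mem_filter.1 hx
      push Not at hx2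
      obtain ⟨j, hj⟩ := hx2
      exact Finset.mem_biUnion.2 ⟨j, j.2, Finset.mem_filter.2 ⟨hxF, hj⟩⟩
    have h1 := (Finset.card_le_card hsub).trans Finset.card_biUnion_le
    have h2 : ((F.filter fun x => ¬ ∀ j : J, (fun i : B j => x i) ∈ A j).card : ℝ)
        ≤ ((∑ j ∈ J, (F.filter fun x => (fun i : B j => x i) ∉ A j).card : ℕ) : ℝ) :=
      Nat.cast_le.2 h1
    push_cast at h2
    exact h2
  have hhalf : ∑ j ∈ J, e j ≤ (F.card : ℝ) / 2 :=
    half_aux k k' t _ _ hkr hk'1 ht (Nat.cast_nonneg _)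
      (hJs.trans (mul_le_mul_of_nonneg_left hexc (Nat.cast_nonneg _)))
  have hsplit : F'.card + (F.filter fun x => ¬ ∀ j : J, (fun i : B j => x i) ∈ A j).card = F.card :=
    Finset.card_filter_add_card_filter_not _
  have hF'c : (F.card : ℝ) ≤ 2 * F'.card := by
    have h : ((F'.card + (F.filter fun x => ¬ ∀ j : J, (fun i : B j => x i) ∈ A j).card : ℕ) : ℝ)
        = F.card := by rw [hsplit]
    push_cast at h
    linarith
  have hmain := blocks (fun j : J => B j) (fun i j hij => hB i j fun h => hij (Subtype.ext h))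
    (fun j => hne j) F' (fun x hx y hy hxy => by
      obtain ⟨l, hl⟩ := hF y (Finset.mem_filter.1 hy).1 x (Finset.mem_filter.1 hx).1 hxy.symm 2
      exact ⟨l, hl⟩) (fun j => A j) (fun j => hA j) (fun x hx => (Finset.mem_filter.1 hx).2)
  rw [Fintype.card_coe, hJc', Fintype.card_fin] at hmain
  exact fin_aux _ F'.card k k' t (2 ^ q) (Nat.cast_nonneg _) hkr ht
    (by positivity) hF'c hk'2.le hmain

end Pool.Agent.CVB
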